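import Pool.Agent.J4H69.CY.Lft

/-!
# Gluing, in terms of sums of derivations
-/

set_option autoImplicit false

open scoped Classical Matrix

namespace Pool.Agent.J4H69.CY

open Pool.Agent.Helper386.PD3 Pool.Agent.J4H59.PD Pool.Agent.J4H59.PE Pool.Agent.J4H59.PF

noncomputable section

theorem t_GLU (hD : Pool.Agent.J4H59.PL.S_DCT) : Pool.Agent.J4H59.PL.S_GLU := by
  intro G _ n w e0 e1 e2 e3 d0 d1 d2 h F _ _ Mp Mm Mi hinf hlp hlm hp hm hM
  subst hinf
  obtain ⟨v, hv⟩ := hD G n e0 e1 e2 d0 d1 h.low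
  refine allDer_of_rowExact h.colow fun z hz1 hz0 => ?_
  obtain ⟨bp, hbp⟩ := res_bound h.colow hp z hz1 hz0
  obtain ⟨bm, hbm⟩ := res_bound h.colow hm z hz1 hz0
  rw [dgM_dgM] at hz1 hz0
  rw [dgM_dgM] at hbp hbm
  have hp3 : col d1 (fun i => (bp i : F)) = fun i => (z i : F) := by
    funext i
    rw [← col_coe]
    exact congrArg Subtype.val (congrFun hbp i)
  have hm3 : col d1 (fun i => (bm i : F)) = fun i => (z i : F) := by
    funext i
    rw [← col_coe]
    exact congrArg Subtype.val (congrFun hbm i)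
  -- the difference
  let β : Fin n → ↥(Mp ⊔ Mm) := fun i => ⟨(bp i : F) - (bm i : F),
    Submodule.sub_mem _ (Submodule.mem_sup_left (bp i).2) (Submodule.mem_sup_right (bm i).2)⟩
  have hβ : col d1 β = 0 := by
    funext i
    apply Subtype.ext
    rw [col_coe]
    have h1 : (fun j => ((β j : ↥(Mp ⊔ Mm)) : F)) = (fun j => (bp j : F)) - fun j => (bm j : F) := rfl
    rw [h1, col_sub, hp3, hm3, sub_self]
    rfl
  have e11 : ∀ x : Fin n → ↥(Mp ⊔ Mm), col e1 (col e1 x) = col e1 x := fun x => by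
    rw [← col_mul, h.low.ee1]
  have hβe : col d1 (col e1 β) = 0 := by rw [← col_mul, h.low.d1e1, hβ]
  have hδ := (hv ↥(Mp ⊔ Mm)).1 (col e1 β) (e11 β) hβe
  obtain ⟨δp, δm, μ, dp, dm, mp, mm, hμ, hsum⟩ := hM
    (fun g => ((pr (v g) (col e1 β) : ↥(Mp ⊔ Mm)) : F))
    (fun g g' => congrArg Subtype.val (hδ g g'))
    (fun g => (pr (v g) (col e1 β) : ↥(Mp ⊔ Mm)).2)
  obtain ⟨φp, hp1, hp2, νp, hνp⟩ := (hv Mp).2.2 (fun g => (⟨δp g, mp g⟩ : Mp))
    (fun g g' => Subtype.ext (dp g g'))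
  obtain ⟨φm, hm1, hm2, νm, hνm⟩ := (hv Mm).2.2 (fun g => (⟨δm g, mm g⟩ : Mm))
    (fun g g' => Subtype.ext (dm g g'))
  have hcp1 : col e1 (fun i => (φp i : F)) = fun i => (φp i : F) := by
    funext i; rw [← col_coe, hp1]
  have hcp2 : col d1 (fun i => (φp i : F)) = 0 := by
    funext i; rw [← col_coe, hp2]; rfl
  have hcm1 : col e1 (fun i => (φm i : F)) = fun i => (φm i : F) := by
    funext i; rw [← col_coe, hm1]
  have hcm2 : col d1 (fun i => (φm i : F)) = 0 := by
    funext i; rw [← col_coe, hm2]; rfl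
  -- the corrected column
  let γ : Fin n → ↥(Mp ⊔ Mm) := fun i => col e1 β i -
    ⟨(φp i : F) + (φm i : F), Submodule.add_mem _ (Submodule.mem_sup_left (φp i).2)
      (Submodule.mem_sup_right (φm i).2)⟩
  have hγ : (fun i => ((γ i : ↥(Mp ⊔ Mm)) : F)) = col e1 (fun i => ((β i : ↥(Mp ⊔ Mm)) : F)) -
      ((fun i => (φp i : F)) + fun i => (φm i : F)) := by
    funext i
    change ((col e1 β i : ↥(Mp ⊔ Mm)) : F) - ((φp i : F) + (φm i : F)) = _
    rw [col_coe]
    rfl
  have hγ1 : col e1 γ = γ := by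
    funext i
    apply Subtype.ext
    rw [col_coe, hγ, col_sub, col_add, hcp1, hcm1, ← col_mul, h.low.ee1]
    exact (congrFun hγ i).symm
  have hγ2 : col d1 γ = 0 := by
    funext i
    apply Subtype.ext
    have h5 : col d1 (col e1 (fun i => ((β i : ↥(Mp ⊔ Mm)) : F))) = 0 := by
      funext i
      have := congrArg Subtype.val (congrFun hβe i)
      rw [col_coe] at this
      have h6 : (fun j => ((col e1 β j : ↥(Mp ⊔ Mm)) : F)) =
        col e1 (fun i => ((β i : ↥(Mp ⊔ Mm)) : F)) := by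
        funext j; rw [col_coe]
      rw [h6] at this
      exact this
    rw [col_coe, hγ, col_sub, col_add, hcp2, hcm2, h5, add_zero, sub_zero]
    rfl
  obtain ⟨c, hc⟩ := (hv ↥(Mp ⊔ Mm)).2.1 γ hγ1 hγ2
    ⟨⟨μ - (νp : F) - (νm : F), Submodule.sub_mem _ (Submodule.sub_mem _ hμ
      (Submodule.mem_sup_left νp.2)) (Submodule.mem_sup_right νm.2)⟩, fun g => by
      apply Subtype.ext
      rw [pr_coe, hγ, pr_sub', pr_add']
      have a1 : pr (v g) (col e1 (fun i => ((β i : ↥(Mp ⊔ Mm)) : F))) =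
          ((pr (v g) (col e1 β) : ↥(Mp ⊔ Mm)) : F) := by
        rw [pr_coe]
        congr 1
        funext j
        rw [col_coe]
      have a2 : pr (v g) (fun i => (φp i : F)) = δp g + (gof g • (νp : F) - (νp : F)) := by
        rw [← pr_coe, hνp g]
        rfl
      have a3 : pr (v g) (fun i => (φm i : F)) = δm g + (gof g • (νm : F) - (νm : F)) := by
        rw [← pr_coe, hνm g]
        rfl
      have a4 := hsum g
      rw [a1, a2, a3, a4]
      change _ = gof g • (μ - (νp : F) - (νm : F)) - (μ - (νp : F) - (νm : F))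
      rw [smul_sub, smul_sub]
      abel⟩
  have hc2 : ∀ i, ∃ x ∈ Mp, ∃ y ∈ Mm, x + y = (c i : F) := fun i => Submodule.mem_sup.1 (c i).2
  choose x hx y hy hxy using hc2
  have hβF : (fun i => ((β i : ↥(Mp ⊔ Mm)) : F)) = (fun j => (bp j : F)) - fun j => (bm j : F) := rfl
  have hceq : col d0 (fun i => (c i : F)) = col e1 (fun i => (bp i : F)) -
      col e1 (fun i => (bm i : F)) - ((fun i => (φp i : F)) + fun i => (φm i : F)) := by
    funext i
    rw [← col_coe, hc]
    have := congrFun hγ i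
    rw [hβF, col_sub] at this
    exact this
  have hcxy : (fun i => (c i : F)) = x + y := by
    funext i
    exact (hxy i).symm
  rw [hcxy, col_add] at hceq
  have hkey : col e1 (fun i => (bp i : F)) - col d0 x - (fun i => (φp i : F)) =
      col e1 (fun i => (bm i : F)) + col d0 y + (fun i => (φm i : F)) := by
    have : col e1 (fun i => (bp i : F)) = (col d0 x + col d0 y) + col e1 (fun i => (bm i : F)) +
        ((fun i => (φp i : F)) + fun i => (φm i : F)) := by
      rw [hceq]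
      abel
    rw [this]
    abel
  let b : Fin n → ↥(Mp ⊓ Mm) := fun i =>
    ⟨(col e1 (fun i => (bp i : F)) - col d0 x - (fun i => (φp i : F))) i,
    Submodule.sub_mem _ (Submodule.sub_mem _ (col_mem Mp _ _ (fun j => (bp j).2) i)
      (col_mem Mp _ _ hx i)) (φp i).2, by
      change (col e1 (fun i => (bp i : F)) - col d0 x - (fun i => (φp i : F))) i ∈ Mm
      rw [hkey]
      exact Submodule.add_mem _ (Submodule.add_mem _ (col_mem Mm _ _ (fun j => (bm j).2) i)
        (col_mem Mm _ _ hy i)) (φm i).2⟩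
  refine ⟨b, ?_⟩
  rw [dgM_dgM]
  funext i
  apply Subtype.ext
  rw [col_coe]
  have h1 : (fun j => ((b j : ↥(Mp ⊓ Mm)) : F)) =
    col e1 (fun i => (bp i : F)) - col d0 x - (fun i => (φp i : F)) := rfl
  rw [h1, col_sub, col_sub, ← col_mul, ← col_mul, h.low.d1e1, h.low.dd, col_zero, sub_zero, hcp2,
    sub_zero, hp3]

end

end Pool.Agent.J4H69.CY
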