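import Mathlib
import Pool.Agent.J4H59.PL.Dun

/-!
# A section of a free action on classes
-/

set_option autoImplicit false

namespace Pool.Agent.J4H69.CY

theorem t_SEC : Pool.Agent.J4H59.PL.S_SEC := by
  intro G _ N Eq hE hN Z hZ hZE hfree
  let s : Setoid G :=
    { r := fun a b => ∃ n ∈ N, Eq (a * n) b
      iseqv :=
        { refl := fun a => ⟨1, N.one_mem, by rw [mul_one]; exact hE.refl a⟩
          symm := by
            rintro a b ⟨n, hn, h⟩
            refine ⟨n⁻¹, N.inv_mem hn, ?_⟩
            have := hN _ _ h n⁻¹ (N.inv_mem hn)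
            rw [mul_inv_cancel_right] at this
            exact hE.symm this
          trans := by
            rintro a b c ⟨n, hn, h⟩ ⟨m, hm, h'⟩
            refine ⟨n * m, N.mul_mem hn hm, ?_⟩
            rw [← mul_assoc]
            exact hE.trans (hN _ _ h m hm) h' } }
  let rep : G → G := fun a => (Quotient.mk s a).out
  have hrep : ∀ a, ∃ n ∈ N, Eq (a * n) (rep a) := by
    intro a
    exact s.symm (Quotient.exact (Quotient.out_eq (Quotient.mk s a)))
  have hrepE : ∀ a b, (∃ n ∈ N, Eq (a * n) b) → rep a = rep b := by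
    intro a b h
    have : Quotient.mk s a = Quotient.mk s b := Quotient.sound h
    simp only [rep, this]
  refine ⟨{b | b ∈ Z ∧ Eq b (rep b)}, fun b hb => hb.1, ?_, ?_⟩
  · rintro a b ⟨ha, ha'⟩ h
    refine ⟨hZE a b ha h, ?_⟩
    have e := hrepE a b ⟨1, N.one_mem, by rw [mul_one]; exact h⟩
    rw [← e]
    exact hE.trans (hE.symm h) ha'
  · intro a ha
    have hr : ∀ n ∈ N, rep (a * n) = rep a := fun n hn =>
      (hrepE a (a * n) ⟨n, hn, hE.refl _⟩).symm
    obtain ⟨n, hn, h⟩ := hrep a
    refine ⟨n, ⟨hn, hZ a ha n hn, ?_⟩, ?_⟩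
    · rw [hr n hn]; exact h
    · rintro m ⟨hm, hmZ, hm'⟩
      rw [hr m hm] at hm'
      have h1 : Eq (a * n) (a * n * (n⁻¹ * m)) := by
        have e : a * n * (n⁻¹ * m) = a * m := by group
        rw [e]
        exact hE.trans h (hE.symm hm')
      have h2 := hfree (a * n) (hZ a ha n hn) (n⁻¹ * m) (N.mul_mem (N.inv_mem hn) hm) h1
      rw [inv_mul_eq_one] at h2
      exact h2.symm

end Pool.Agent.J4H69.CY
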