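import Mathlib
import Pool.Agent.J4H59.PL.Dun

/-!
# Subgroups which are tidy above (Willis)
-/

set_option autoImplicit false

namespace Pool.Agent.J4H69.CY

open scoped Pointwise

variable {G : Type} [Group G]

/-- the intersections `N ∩ tNt⁻¹ ∩ ... ∩ tⁿNt⁻ⁿ` -/
def V (N : Subgroup G) (t : G) : ℕ → Subgroup G
  | 0 => N
  | n + 1 => N ⊓ (MulAut.conj t • V N t n)

lemma mem_conj (H : Subgroup G) (t x : G) : x ∈ (MulAut.conj t • H : Subgroup G) ↔ t⁻¹ * x * t ∈ H := by
  rw [Subgroup.mem_pointwise_smul_iff_inv_smul_mem, ← map_inv, MulAut.smul_def, MulAut.conj_apply]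
  simp

lemma conj_mono (H K : Subgroup G) (t : G) (h : H ≤ K) :
    (MulAut.conj t • H : Subgroup G) ≤ MulAut.conj t • K := by
  intro x hx
  rw [mem_conj] at hx ⊢
  exact h hx

lemma V_le_N (N : Subgroup G) (t : G) (n : ℕ) : V N t n ≤ N := by
  cases n with
  | zero => exact le_rfl
  | succ n => exact inf_le_left

lemma V_succ_le (N : Subgroup G) (t : G) (n : ℕ) : V N t (n + 1) ≤ V N t n := by
  induction n with
  | zero => exact V_le_N N t 1
  | succ n ih => exact inf_le_inf le_rfl (conj_mono _ _ t ih)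

lemma V_anti (N : Subgroup G) (t : G) : Antitone (V N t) :=
  antitone_nat_of_succ_le (V_succ_le N t)

lemma V_le_conj (N : Subgroup G) (t : G) (n k : ℕ) :
    V N t (n + k) ≤ (MulAut.conj (t ^ k) • V N t n : Subgroup G) := by
  induction k with
  | zero => simp
  | succ k ih =>
    have h : V N t (n + (k + 1)) ≤ MulAut.conj t • V N t (n + k) := inf_le_right
    refine h.trans ((conj_mono _ _ t ih).trans ?_)
    rw [smul_smul, ← map_mul, ← pow_succ']

lemma V_inf_conj (N : Subgroup G) (t : G) (n k : ℕ) :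
    V N t (n + k) ⊓ (MulAut.conj (t ^ k) • V N t (n + 1)) ≤ V N t (n + k + 1) := by
  induction k with
  | zero => simp
  | succ k ih =>
    intro x hx
    obtain ⟨h1, h2⟩ := hx
    have h3 : x ∈ N ∧ x ∈ (MulAut.conj t • V N t (n + k) : Subgroup G) := h1
    refine ⟨h3.1, ?_⟩
    change x ∈ (MulAut.conj t • V N t (n + k + 1) : Subgroup G)
    rw [mem_conj]
    apply ih
    refine ⟨(mem_conj _ _ _).1 h3.2, ?_⟩
    have h4 := (mem_conj _ _ _).1 h2
    change t⁻¹ * x * t ∈ (MulAut.conj (t ^ k) • V N t (n + 1) : Subgroup G)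
    rw [mem_conj]
    convert h4 using 1
    rw [pow_succ']
    group

lemma relIndex_conj (H K : Subgroup G) (t : G) :
    (MulAut.conj t • H : Subgroup G).relIndex (MulAut.conj t • K) = H.relIndex K :=
  Subgroup.relIndex_pointwise_smul _ _ _

lemma V_ne (N : Subgroup G) (t : G) (h : (MulAut.conj t • N : Subgroup G).relIndex N ≠ 0) (n : ℕ) :
    (V N t n).relIndex N ≠ 0 := by
  induction n with
  | zero => simp [V]
  | succ n ih =>
    have h1 : (MulAut.conj t • V N t n : Subgroup G).relIndex (MulAut.conj t • N) ≠ 0 := by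
      rw [relIndex_conj]; exact ih
    have h2 := Subgroup.relIndex_ne_zero_trans h1 h
    have h3 : (V N t (n + 1)).relIndex N = (MulAut.conj t • V N t n : Subgroup G).relIndex N := by
      change (N ⊓ (MulAut.conj t • V N t n)).relIndex N = _
      rw [inf_comm, Subgroup.inf_relIndex_right]
    rw [h3]; exact h2

lemma V_ne' (N : Subgroup G) (t : G) (h : (MulAut.conj t • N : Subgroup G).relIndex N ≠ 0) (n m : ℕ) :
    (V N t n).relIndex (V N t m) ≠ 0 := by
  intro h0
  exact V_ne N t h n (Subgroup.relIndex_eq_zero_of_le_right (V_le_N N t m) h0)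

lemma V_rel (N : Subgroup G) (t : G) (h : (MulAut.conj t • N : Subgroup G).relIndex N ≠ 0) (n : ℕ) :
    (V N t (n + 2)).relIndex (V N t (n + 1)) ≤ (V N t (n + 1)).relIndex (V N t n) := by
  have h1 : (V N t (n + 2)).relIndex (V N t (n + 1)) =
      (MulAut.conj t • V N t (n + 1) : Subgroup G).relIndex (V N t (n + 1)) := by
    have e : V N t (n + 2) = (MulAut.conj t • V N t (n + 1) : Subgroup G) ⊓ V N t (n + 1) := by
      apply le_antisymm
      · exact le_inf inf_le_right (V_succ_le N t (n + 1))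
      · exact le_inf (inf_le_right.trans (V_le_N _ _ _)) inf_le_left
    rw [e, Subgroup.inf_relIndex_right]
  rw [h1, ← relIndex_conj (V N t (n + 1)) (V N t n) t]
  apply Subgroup.relIndex_le_of_le_right (inf_le_right : V N t (n + 1) ≤ MulAut.conj t • V N t n)
  rw [relIndex_conj]
  exact V_ne' N t h _ _

lemma prod_of_relIndex (H P M : Subgroup G) (hP : P ≤ M) (h0 : H.relIndex M ≠ 0)
    (h : H.relIndex M ≤ H.relIndex P) (m : G) (hm : m ∈ M) :
    ∃ p ∈ P, ∃ q ∈ H, m = p * q := by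
  have hfin : Finite (M ⧸ H.subgroupOf M) := Nat.finite_of_card_ne_zero h0
  let f := Subgroup.quotientSubgroupOfEmbeddingOfLE H hP
  have hb := Function.Injective.bijective_of_nat_card_le f.injective h
  obtain ⟨x, hx⟩ := hb.2 (QuotientGroup.mk ⟨m, hm⟩)
  obtain ⟨p, rfl⟩ := QuotientGroup.mk_surjective x
  have e : f (QuotientGroup.mk p) = QuotientGroup.mk (Subgroup.inclusion hP p) := rfl
  rw [e, QuotientGroup.eq, Subgroup.mem_subgroupOf] at hx
  refine ⟨p, p.2, (p : G)⁻¹ * m, ?_, by group⟩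
  simpa using hx

theorem t_TID : Pool.Agent.J4H59.PL.S_TID := by
  intro G _ N t ht hk
  have h0 : (MulAut.conj t • N : Subgroup G).relIndex N ≠ 0 := by
    have := ((Subgroup.Commensurable.commensurator_mem_iff N t).1 ht).1
    have e : (MulAut.conj t • N : Subgroup G) = ConjAct.toConjAct t • N := by
      ext x
      rw [mem_conj, Subgroup.mem_pointwise_smul_iff_inv_smul_mem, ← map_inv, ConjAct.toConjAct_smul]
      simp
    rw [e]; exact this
  -- the minimal index
  obtain ⟨n0, hn0⟩ : ∃ n0, ∀ n, (V N t (n0 + 1)).relIndex (V N t n0) ≤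
      (V N t (n + 1)).relIndex (V N t n) := by
    have := Nat.sInf_mem (Set.range_nonempty fun n => (V N t (n + 1)).relIndex (V N t n))
    obtain ⟨n0, h⟩ := this
    refine ⟨n0, fun n => ?_⟩
    have h' : (V N t (n0 + 1)).relIndex (V N t n0) =
      sInf (Set.range fun n => (V N t (n + 1)).relIndex (V N t n)) := h
    rw [h']
    exact Nat.sInf_le ⟨n, rfl⟩
  have key : ∀ k : ℕ, ∀ m ∈ V N t n0, ∃ a ∈ V N t n0, ∃ b ∈ V N t n0,
      t ^ k * m * t = a * t ^ (k + 1) * b := by
    intro k m hm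
    have hle := V_le_conj N t n0 k
    have hne : (MulAut.conj (t ^ k) • V N t (n0 + 1) : Subgroup G).relIndex
        (MulAut.conj (t ^ k) • V N t n0) ≠ 0 := by
      rw [relIndex_conj]; exact V_ne' N t h0 _ _
    have hne2 : (MulAut.conj (t ^ k) • V N t (n0 + 1) : Subgroup G).relIndex (V N t (n0 + k)) ≠ 0 :=
      fun h => hne (Subgroup.relIndex_eq_zero_of_le_right hle h)
    have hd : (MulAut.conj (t ^ k) • V N t (n0 + 1) : Subgroup G).relIndex
        (MulAut.conj (t ^ k) • V N t n0) ≤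
        (MulAut.conj (t ^ k) • V N t (n0 + 1) : Subgroup G).relIndex (V N t (n0 + k)) := by
      rw [relIndex_conj]
      refine (hn0 (n0 + k)).trans ?_
      have e : (MulAut.conj (t ^ k) • V N t (n0 + 1) : Subgroup G).relIndex (V N t (n0 + k)) =
          (V N t (n0 + k) ⊓ (MulAut.conj (t ^ k) • V N t (n0 + 1))).relIndex (V N t (n0 + k)) := by
        rw [inf_comm, Subgroup.inf_relIndex_right]
      rw [e]
      apply Subgroup.relIndex_le_of_le_left (V_inf_conj N t n0 k)
      rw [← e]; exact hne2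
    have hm' : t ^ k * m * (t ^ k)⁻¹ ∈ (MulAut.conj (t ^ k) • V N t n0 : Subgroup G) := by
      rw [mem_conj]
      have : (t ^ k)⁻¹ * (t ^ k * m * (t ^ k)⁻¹) * t ^ k = m := by group
      rw [this]; exact hm
    obtain ⟨p, hp, q, hq, e⟩ := prod_of_relIndex _ _ _ hle hne hd _ hm'
    rw [mem_conj] at hq
    have hq2 : (t ^ k)⁻¹ * q * t ^ k ∈ (MulAut.conj t • V N t n0 : Subgroup G) := hq.2
    rw [mem_conj] at hq2
    refine ⟨p, V_anti N t (Nat.le_add_right n0 k) hp, _, hq2, ?_⟩
    have e1 : t ^ k * m * t = (t ^ k * m * (t ^ k)⁻¹) * t ^ k * t := by group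
    rw [e1, e, pow_succ]
    group
  have fin : ∀ i : ℕ, {x : G ⧸ V N t n0 | ∃ m ∈ V N t n0, x = QuotientGroup.mk (m * t ^ i)}.Finite := by
    intro i
    have h1 : (MulAut.conj (t ^ i) • V N t n0 : Subgroup G).relIndex (V N t n0) ≠ 0 := fun h =>
      V_ne' N t h0 (n0 + i) n0 (Subgroup.relIndex_eq_zero_of_le_left (V_le_conj N t n0 i) h)
    have h2 : Finite (V N t n0 ⧸ (MulAut.conj (t ^ i) • V N t n0 : Subgroup G).subgroupOf (V N t n0)) :=
      Nat.finite_of_card_ne_zero h1
    refine (Set.finite_range fun q : V N t n0 ⧸ (MulAut.conj (t ^ i) • V N t n0 :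
      Subgroup G).subgroupOf (V N t n0) =>
      (QuotientGroup.mk ((q.out : G) * t ^ i) : G ⧸ V N t n0)).subset ?_
    rintro x ⟨m, hm, rfl⟩
    refine ⟨QuotientGroup.mk ⟨m, hm⟩, ?_⟩
    dsimp only
    rw [QuotientGroup.eq]
    have h3 := QuotientGroup.mk_out_eq_mul
      ((MulAut.conj (t ^ i) • V N t n0 : Subgroup G).subgroupOf (V N t n0)) (⟨m, hm⟩ : V N t n0)
    obtain ⟨h, hh⟩ := h3
    have h4 := h.2
    rw [Subgroup.mem_subgroupOf, mem_conj] at h4
    rw [hh]
    have h5 : (((⟨m, hm⟩ * (h : V N t n0) : V N t n0) : G) * t ^ i)⁻¹ * (m * t ^ i) =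
        ((t ^ i)⁻¹ * ((h : V N t n0) : G) * t ^ i)⁻¹ := by
      simp only [Subgroup.coe_mul]
      group
    rw [h5]
    exact inv_mem h4
  have main : ∀ (k l : ℕ) (m m' : G), m ∈ V N t n0 → m' ∈ V N t n0 → t ^ k = m * t ^ l * m' →
      l < k → False := by
    intro k l m m' hm hm' e hlk
    have H1 : ∀ j, ∃ a ∈ V N t n0, ∃ b ∈ V N t n0, t ^ (k + j) = a * t ^ (l + j) * b := by
      intro j
      induction j with
      | zero => exact ⟨m, hm, m', hm', e⟩
      | succ j ih =>
        obtain ⟨a, ha, b, hb, e1⟩ := ih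
        obtain ⟨a', ha', b', hb', e2⟩ := key (l + j) b hb
        refine ⟨a * a', mul_mem ha ha', b', hb', ?_⟩
        rw [← add_assoc, pow_succ, e1, mul_assoc a, mul_assoc a, e2, ← add_assoc]
        group
    have H2 : ∀ j, ∃ i < k, ∃ a ∈ V N t n0, ∃ b ∈ V N t n0, t ^ j = a * t ^ i * b := by
      intro j
      induction j using Nat.strong_induction_on with
      | _ j ih =>
        by_cases hj : j < k
        · exact ⟨j, hj, 1, one_mem _, 1, one_mem _, by simp⟩
        · obtain ⟨s, rfl⟩ := Nat.exists_eq_add_of_le (not_lt.1 hj)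
          obtain ⟨a, ha, b, hb, e1⟩ := H1 s
          obtain ⟨i, hi, a', ha', b', hb', e2⟩ := ih (l + s) (by omega)
          refine ⟨i, hi, a * a', mul_mem ha ha', b' * b, mul_mem hb' hb, ?_⟩
          rw [e1, e2]
          group
    have hS : (⋃ i ∈ Set.Iio k, {x : G ⧸ V N t n0 | ∃ m ∈ V N t n0,
        x = QuotientGroup.mk (m * t ^ i)}).Finite :=
      (Set.finite_Iio k).biUnion fun i _ => fin i
    have hmem : ∀ j : ℕ, (QuotientGroup.mk (t ^ j) : G ⧸ V N t n0) ∈
        (⋃ i ∈ Set.Iio k, {x : G ⧸ V N t n0 | ∃ m ∈ V N t n0,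
        x = QuotientGroup.mk (m * t ^ i)}) := by
      intro j
      obtain ⟨i, hi, a, ha, b, hb, e1⟩ := H2 j
      simp only [Set.mem_iUnion]
      refine ⟨i, hi, a, ha, ?_⟩
      rw [QuotientGroup.eq, e1]
      have : (a * t ^ i * b)⁻¹ * (a * t ^ i) = b⁻¹ := by group
      rw [this]; exact inv_mem hb
    have := hS.to_subtype
    obtain ⟨j, j', hjj, he⟩ := Finite.exists_ne_map_eq_of_infinite
      (fun j : ℕ => (⟨_, hmem j⟩ : (⋃ i ∈ Set.Iio k, {x : G ⧸ V N t n0 | ∃ m ∈ V N t n0,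
        x = QuotientGroup.mk (m * t ^ i)} : Set (G ⧸ V N t n0))))
    have he' := congrArg Subtype.val he
    dsimp only at he'
    rw [QuotientGroup.eq] at he'
    apply hk ((j' : ℤ) - j) (by omega)
    apply V_le_N N t n0
    have : t ^ ((j' : ℤ) - j) = (t ^ j)⁻¹ * t ^ j' := by
      rw [sub_eq_neg_add, zpow_add, zpow_neg, zpow_natCast, zpow_natCast]
    rw [this]; exact he'
  refine ⟨V N t n0, V_le_N N t n0, V_ne N t h0 n0, key, ?_⟩
  intro k l m m' hm hm' e
  rcases lt_trichotomy k l with h | h | h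
  · exfalso
    refine main l k m⁻¹ m'⁻¹ (inv_mem hm) (inv_mem hm') ?_ h
    rw [e]; group
  · exact h
  · exact (main k l m m' hm hm' e h).elim

end Pool.Agent.J4H69.CY
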