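import Pool.Agent.J4H59.PL.Stm

/-!
# Derivations with values in a sum, and gluing
-/

set_option autoImplicit false

open scoped Classical Matrix

namespace Pool.Agent.J4H69.CY

open Pool.Agent.Helper386.PD3 Pool.Agent.J4H59.PD Pool.Agent.J4H59.PE Pool.Agent.J4H59.PF

noncomputable section

variable {G : Type} [Group G] {n : ℕ} {F : Type} [AddCommGroup F] [Module (RR G) F]

theorem pr_mem (A : Submodule (RR G) F) (v : Fin n → RR G) (φ : Fin n → F) (h : ∀ i, φ i ∈ A) :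
    pr v φ ∈ A :=
  Submodule.sum_mem _ fun j _ => Submodule.smul_mem _ _ (h j)

theorem col_mem (A : Submodule (RR G) F) (D : MR G n) (φ : Fin n → F) (h : ∀ i, φ i ∈ A) (i : Fin n) :
    col D φ i ∈ A := pr_mem A _ φ h

theorem pr_coe {A : Submodule (RR G) F} (v : Fin n → RR G) (φ : Fin n → A) :
    ((pr v φ : A) : F) = pr v (fun i => (φ i : F)) := by
  change ((∑ j, v j • φ j : A) : F) = ∑ j, v j • (φ j : F)
  rw [Submodule.coe_sum]
  rfl

theorem d2d1 {w : G →* ℤˣ} {e0 e1 e2 e3 d0 d1 d2 : MR G n} (h : Full w e0 e1 e2 e3 d0 d1 d2) :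
    d2 * d1 = 0 := by
  have h1 := h.colow.dd
  rw [← dgM_mul, ← dgM_zero w] at h1
  exact dgM_inj w h1

theorem inner_der (μ : F) : Pool.Agent.J4H59.PL.Der (G := G) fun g => gof g • μ - μ := by
  intro g h
  dsimp only
  rw [gof_mul, mul_smul, smul_sub]
  abel

theorem der_sub {δ δ' : G → F} (h : Pool.Agent.J4H59.PL.Der δ) (h' : Pool.Agent.J4H59.PL.Der δ') :
    Pool.Agent.J4H59.PL.Der fun g => δ g - δ' g := by
  intro g g'
  dsimp only
  rw [h g g', h' g g', smul_sub]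
  abel

theorem t_LFT (hD : Pool.Agent.J4H59.PL.S_DCT) : Pool.Agent.J4H59.PL.S_LFT := by
  intro G _ n w e0 e1 e2 e3 d0 d1 d2 h F _ _ A B hex D hDer hDmem
  obtain ⟨v, hv⟩ := hD G n e0 e1 e2 d0 d1 h.low
  -- the column in `A ⊔ B`
  have hD' : Pool.Agent.J4H59.PL.Der (G := G) (fun g => (⟨D g, hDmem g⟩ : ↥(A ⊔ B))) := by
    intro g g'
    apply Subtype.ext
    exact hDer g g'
  obtain ⟨φ, h1, h2, μ, hμ⟩ := (hv ↥(A ⊔ B)).2.2 _ hD'
  have hφ : ∀ i, ∃ x ∈ A, ∃ y ∈ B, x + y = (φ i : F) := fun i => Submodule.mem_sup.1 (φ i).2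
  choose a0 ha0 b0 hb0 hab0 using hφ
  obtain ⟨μa, hμa, μb, hμb, hμab⟩ := Submodule.mem_sup.1 μ.2
  have hφ1 : col e1 (fun i => (φ i : F)) = fun i => (φ i : F) := by
    funext i
    rw [← col_coe, h1]
  have hφ2 : col d1 (fun i => (φ i : F)) = 0 := by
    funext i
    rw [← col_coe, h2]
    rfl
  have hab : (fun i => (φ i : F)) = a0 + b0 := by
    funext i
    exact (hab0 i).symm
  have hsum : col e1 a0 + col e1 b0 = fun i => (φ i : F) := by
    rw [← col_add, ← hab, hφ1]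
  have hd1 : col d1 (col e1 a0) = - col d1 (col e1 b0) := by
    rw [eq_neg_iff_add_eq_zero, ← col_add, hsum, hφ2]
  obtain ⟨θ, hθ, hθ1⟩ := hex (col d1 (col e1 a0)) (by
      intro i
      refine ⟨col_mem A _ _ (col_mem A _ _ ha0) i, ?_⟩
      rw [hd1]
      exact Submodule.neg_mem _ (col_mem B _ _ (col_mem B _ _ hb0) i))
    (by rw [← col_mul, h.low.e2d1]) (by rw [← col_mul, d2d1 h, col_zero])
  have hθd : col d1 (col e1 θ) = col d1 (col e1 a0) := by rw [← col_mul, h.low.d1e1, hθ1]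
  -- the corrected columns
  have e11 : ∀ x : Fin n → F, col e1 (col e1 x) = col e1 x := fun x => by
    rw [← col_mul, h.low.ee1]
  have ha1 : col e1 (col e1 a0 - col e1 θ) = col e1 a0 - col e1 θ := by
    rw [col_sub, e11, e11]
  have ha2 : col d1 (col e1 a0 - col e1 θ) = 0 := by
    rw [col_sub, hθd, sub_self]
  have hb1 : col e1 (col e1 b0 + col e1 θ) = col e1 b0 + col e1 θ := by
    rw [col_add, e11, e11]
  have hb2 : col d1 (col e1 b0 + col e1 θ) = 0 := by
    rw [col_add, hθd, hd1, add_neg_cancel]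
  have dA := (hv F).1 _ ha1 ha2
  have dB := (hv F).1 _ hb1 hb2
  have hma : ∀ i, (col e1 a0 - col e1 θ) i ∈ A := fun i =>
    Submodule.sub_mem _ (col_mem A _ _ ha0 i) (col_mem A _ _ (fun j => (hθ j).1) i)
  have hmb : ∀ i, (col e1 b0 + col e1 θ) i ∈ B := fun i =>
    Submodule.add_mem _ (col_mem B _ _ hb0 i) (col_mem B _ _ (fun j => (hθ j).2) i)
  refine ⟨fun g => pr (v g) (col e1 a0 - col e1 θ) - (gof g • μa - μa),
    fun g => pr (v g) (col e1 b0 + col e1 θ) - (gof g • μb - μb), ?_, ?_, ?_, ?_, ?_⟩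
  · exact der_sub dA (inner_der μa)
  · exact der_sub dB (inner_der μb)
  · intro g
    exact Submodule.sub_mem _ (pr_mem A _ _ hma)
      (Submodule.sub_mem _ (Submodule.smul_mem _ _ hμa) hμa)
  · intro g
    exact Submodule.sub_mem _ (pr_mem B _ _ hmb)
      (Submodule.sub_mem _ (Submodule.smul_mem _ _ hμb) hμb)
  · intro g
    have h3 := congrArg Subtype.val (hμ g)
    have h4 : ((pr (v g) φ : ↥(A ⊔ B)) : F) = D g + (gof g • (μ : F) - (μ : F)) := h3
    rw [pr_coe, ← hsum, ← hμab] at h4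
    have h5 : pr (v g) (col e1 a0 + col e1 b0) =
        pr (v g) (col e1 a0 - col e1 θ) + pr (v g) (col e1 b0 + col e1 θ) := by
      rw [← pr_add']
      congr 1
      abel
    rw [h5, smul_add] at h4
    have h6 : D g = (pr (v g) (col e1 a0 - col e1 θ) + pr (v g) (col e1 b0 + col e1 θ)) -
        ((gof g • μa + gof g • μb) - (μa + μb)) := by
      rw [h4]; abel
    dsimp only
    rw [h6]
    abel

end

end Pool.Agent.J4H69.CY
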